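import Mathlib
import Pool.Agent.V1118.SpD
import Pool.Agent.Results.MP_896029_ag.LiftableSectionsOfTwists
import Pool.Agent.Results.MP_896029_ag.BranchPoints

/-!
# The valuative section conjecture for the quadratic twists by `± ⌊α n ^ c⌋`, `c > 1`

Let `e_1, …, e_r` be different integers, `r ≥ 6` even, which satisfy the condition `CrossRatio`, and
let `C_d` be the curve `d y² = ∏ (x - e_i)`.  For all real `c > 1` and all `α > 0` outside a set of
Hausdorff dimension smaller than one (which does not depend on the `e_i`), at least `N / 5` of the
`n ≤ N` are such that `⌊α n ^ c⌋` is squarefree, and for all but `C N (log N) ^ (-1/5)` of them the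
following holds for `d = ± ⌊α n ^ c⌋`.

1. Every section of the fundamental group of `C_d`, or of an open subcurve, is attached modulo 2 to
exactly one branch point `(e_i, 0)`: its image in the group of the field generated by the constants
and the square roots of `(x - e_i) / (x - e_j)` lies in the decomposition group of a valuation above
that rational point.

2. If four of the other branch points give, for each `i`, an elliptic curve of rank zero whose
Tate-Shafarevich group is killed by a positive integer (`FourPoints`), then every section of the
fundamental group of `C_d`, or of any curve dominating it, which lifts to a section of the absolute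
Galois group of the function field, geometric over the completions at the finite places, has its image
in the decomposition group of a prolongation of a valuation with residue field `ℚ`.

The starting library has both theorems for the sequence of all squarefree `d` (`BranchPoints`,
`LiftableSectionsOfTwists`); they say nothing about sparse sequences.
-/

set_option autoImplicit false

open Pool.Agent.V1118.SpD

namespace Pool.Agent.Results.MP_896029_ag.SparseTwists

universe v w

/-- `d` is squarefree and some section of the fundamental group of `d y² = ∏ (x - e_i)`, or of an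
open subcurve, is not attached modulo 2 to exactly one branch point -/
def NotAttached {r : ℕ} (e : Fin r → ℤ) (d : ℤ) : Prop :=
  Squarefree d ∧ ¬ BranchPoints.SectionsAttached.{0, v, w} (fun k => (e k : ℚ)) (d : ℚ)

/-- `d` is squarefree and some liftable section of the fundamental group of `d y² = ∏ (x - e_i)`, or
of a curve dominating it, does not arise from a valuation ring with residue field `ℚ` -/
def NotValuative {r : ℕ} (e : Fin r → ℤ) (d : ℤ) : Prop :=
  Squarefree d ∧ ¬ LiftableSectionsOfTwists.LiftableSectionsAreValuative e d

theorem result (c : ℝ) (hc : 1 < c) : ∃ E : Set ℝ, dimH E < 1 ∧ ∀ α : ℝ, 0 < α → α ∉ E →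
    ManySquarefree α c ∧
    ∀ (r : ℕ) (e : Fin r → ℤ), Function.Injective e → Even r → 6 ≤ r →
      LiftableSectionsOfTwists.CrossRatio e →
      FewAlong α c (1 / 5) (NotAttached.{v, w} e) ∧
      (LiftableSectionsOfTwists.FourPoints e → FewAlong α c (1 / 5) (NotValuative e)) := by
  have hA := uniform_const (ι := Σ r : ℕ, (Fin r → ℤ)) (δ := 1 / 5)
    (fun k => Function.Injective k.2 ∧ Even k.1 ∧ 6 ≤ k.1 ∧ LiftableSectionsOfTwists.CrossRatio k.2)
    (fun k => NotAttached.{v, w} k.2) (by norm_num) (fun k hk => by
      obtain ⟨C, hC⟩ := BranchPoints.result.{v, w}.1 (Fin k.1) k.2 hk.1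
        (by rw [Fintype.card_fin]; exact hk.2.1) (by rw [Fintype.card_fin]; exact hk.2.2.1) hk.2.2.2
      exact ⟨C, fun X hX => hC X (by omega)⟩) c hc
  have hB := uniform_const (ι := Σ r : ℕ, (Fin r → ℤ)) (δ := 1 / 5)
    (fun k => Function.Injective k.2 ∧ Even k.1 ∧ 6 ≤ k.1 ∧
      LiftableSectionsOfTwists.CrossRatio k.2 ∧ LiftableSectionsOfTwists.FourPoints k.2)
    (fun k => NotValuative k.2) (by norm_num) (fun k hk => by
      obtain ⟨C, hC⟩ := LiftableSectionsOfTwists.result (Fin k.1) k.2 hk.1
        (by rw [Fintype.card_fin]; exact hk.2.1) (by rw [Fintype.card_fin]; exact hk.2.2.1)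
        hk.2.2.2.1 hk.2.2.2.2
      exact ⟨C, fun X hX => hC X (by omega)⟩) c hc
  obtain ⟨E, hE, h⟩ := comb hA hB
  exact ⟨E, hE, fun α hα hαE => ⟨(h α hα hαE).1.1, fun r e h1 h2 h3 h4 =>
    ⟨(h α hα hαE).1.2 ⟨r, e⟩ ⟨h1, h2, h3, h4⟩, fun h5 =>
      (h α hα hαE).2.2 ⟨r, e⟩ ⟨h1, h2, h3, h4, h5⟩⟩⟩⟩

end Pool.Agent.Results.MP_896029_ag.SparseTwists
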